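import Pool.Agent.Helper80.D93447.Main

set_option autoImplicit false

open Set Real MeasureTheory
open scoped ContDiff

namespace Pool.Agent.Results.MP_d93447_an.Threshold

/-- **Exact threshold.** For every real `M > 0` and every natural number `N`, a constant
`K = K(M,N)` as in the question exists if and only if `N ≤ 4`. In particular the assertion
`for all positive integers M, N there is such a K` is false. -/
theorem result (M : ℝ) (hM : 0 < M) (N : ℕ) :
    (∃ K : ℝ, ∀ y : ℝ → ℝ, ContDiffOn ℝ 2 y (Icc 0 1) →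
      (∀ x ∈ Icc (0:ℝ) 1, |y x| ≤ M) →
      (∀ x ∈ Icc (0:ℝ) 1, |derivWithin y (Icc 0 1) x| ≤ M) →
      K ≤ ∫ x in (0:ℝ)..1, |iteratedDerivWithin 2 y (Icc 0 1) x| →
      ∃ a b : ℝ, (N : ℕ∞) ≤ {x ∈ Icc (0:ℝ) 1 | y x = a + b * x}.encard) ↔ N ≤ 4 :=
  Pool.Agent.Helper80.D93447.main M hM N

end Pool.Agent.Results.MP_d93447_an.Threshold
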